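import Pool.Agent.H72.KJ.J5S
import Pool.Agent.H82.KSP.J2P

/-!
# Row (DIF) of lemma J: the difference of the values of one polynomial on two near graphs
-/

set_option autoImplicit false

namespace Pool.KJ

open Finset Real
open Pool.Agent.H49.Ent Pool.Agent.H32.Dense Pool.STK Pool.KAF Pool.KAL Pool.KST Pool.KS3

/-- **(DIF)** -/
theorem dif_thm : DIFStmt := by
  intro n D
  refine ⟨2 ^ D, one_le_pow₀ (by norm_num), ?_⟩
  intro P G G' c s R' pp P₀ hP hs hsub hRP hG hFt
  have hM0 : 0 ≤ cs c s (gr G' P) := SML.cs_nonneg _ _ _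
  refine SML.cs_le _ (by positivity) fun y hy => ?_
  have hy1 := hsub hy
  have hpp : (0 : ℝ) < 2 ^ pp := by positivity
  have hpp1 : (1 : ℝ) ≤ 2 ^ pp := one_le_pow₀ (by norm_num)
  have h1 := pas_sub_le (c := 1 / 2 ^ pp) (by positivity) D P y (MvPolynomial.eval y G')
    (2 ^ R') (cs c s (gr G' P)) (MvPolynomial.eval y G - MvPolynomial.eval y G') hP
    (by positivity) hM0
    (by
      have h2 := hG y hy1
      have h3 : (2 : ℝ) ^ (R' + pp) ≤ 2 ^ P₀ := pow_le_pow_right₀ (by norm_num) hRP
      calc |MvPolynomial.eval y G - MvPolynomial.eval y G'| * 2 ^ R'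
          ≤ 1 / 2 ^ P₀ * 2 ^ R' := mul_le_mul_of_nonneg_right h2 (by positivity)
        _ ≤ 1 / 2 ^ (R' + pp) * 2 ^ R' := by
            refine mul_le_mul_of_nonneg_right ?_ (by positivity)
            exact one_div_le_one_div_of_le (by positivity) h3
        _ = 1 / 2 ^ pp := by
            rw [pow_add]
            field_simp)
    (by
      intro j hj
      by_cases hjD : j ≤ D
      · have h2 := hFt j hj hjD
        have h3 := SML.le_cs hs (gr G' (dN j P)) hy
        rw [eval_gr] at h3
        have e : (2 : ℝ) ^ (R' * j) = (2 ^ R') ^ j := pow_mul _ _ _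
        simp only [dN_zero] at h2
        rw [e] at h2
        exact h3.trans h2
      · rw [dN_eq_zero D j P hP (by omega), map_zero, abs_zero]
        positivity)
  have e1 : (fun o : Option (Fin n) => o.elim (MvPolynomial.eval y G' +
      (MvPolynomial.eval y G - MvPolynomial.eval y G')) y) = gpt G y := by
    funext o
    cases o with
    | none =>
      simp only [Option.elim, gpt]
      ring
    | some i => rfl
  have e2 : (fun o : Option (Fin n) => o.elim (MvPolynomial.eval y G') y) = gpt G' y := rfl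
  rw [e1, e2] at h1
  rw [map_sub, eval_gr, eval_gr]
  refine h1.trans ?_
  have h4 : (1 + 1 / 2 ^ pp : ℝ) ^ D ≤ 2 ^ D := by
    refine pow_le_pow_left₀ (by positivity) ?_ _
    have : (1 : ℝ) / 2 ^ pp ≤ 1 := by
      rw [div_le_one hpp]
      exact hpp1
    linarith
  calc 1 / 2 ^ pp * ((1 + 1 / 2 ^ pp) ^ D * cs c s (gr G' P))
      ≤ 1 / 2 ^ pp * (2 ^ D * cs c s (gr G' P)) :=
        mul_le_mul_of_nonneg_left (mul_le_mul_of_nonneg_right h4 hM0) (by positivity)
    _ = 2 ^ D / 2 ^ pp * cs c s (gr G' P) := by ring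

end Pool.KJ
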